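import Mathlib
import Pool.Agent.Q263.PK.Quad

/-!
# The values `k ^ 2 + 3 k + 1` at the integers with restricted digits: the constant and the gaps

Fix a base `b ≥ 2`. For `K ≥ 1` choose for every position `i < K` a set `D i` of digits, in any way,
such that two digits in `D i` have a difference without prime factors outside `b`, for example two
consecutive digits. Let `S` be the set of the integers `0 ≤ k < b ^ K` whose `i`-th digit is in
`D i` for every `i`; it may have only `2 ^ K` elements. Let `S(y)` be the set of the `k ∈ S` such that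
`k ^ 2 + 3 k + 1`, the square root of `k (k + 1) (k + 2) (k + 3) + 1`, has no prime factor `≤ y`,
`V(y) = ∏_{p ≤ y} (1 - 1 / p)` and `C(y) = 2 ∏_{3 ≤ p ≤ y} (1 - (5/p) / (p - 1))` the partial product
of the constant `C` of Bateman and Horn for this polynomial.

For all `Λ` and `ε > 0` there are `L`, `y₀`, `K₀`, which depend on `b`, `Λ` and `ε` only, such that
for all `K ≥ K₀`, all choices of the sets of digits and all `y ≥ y₀` with `y ^ L ≤ b ^ K`:

(1) the number of the elements of `S(y)` is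

  `(1 + θ) · g · ∏_{i ≥ 1} |D i| · ∏_{p ∣ b, p > 2} (1 - (1 + (5/p)) / p)⁻¹ · V(y) C(y)`, `|θ| ≤ ε`,

where `g` is the number of the last digits `d ∈ D 0` such that `d ^ 2 + 3 d + 1` is coprime to `b`;

(2) for all `T` with `x = T V(y) C(y) ≤ Λ` and all finite sets `A` the proportion of the `k ∈ S(y)` for
which the number of the `t` in `(k, k + T]` such that `t ^ 2 + 3 t + 1` has no prime factor `≤ y`
belongs to `A` differs from `∑_{j ∈ A} exp(-x) x ^ j / j!` by at most `ε`. So the distance to the next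
such `t` has the exponential distribution, and the constant `C` is seen also in the gaps.
-/

set_option autoImplicit false

namespace Pool.Agent.Results.MP_d57abb_nt.FourConsecutiveDigits

open Finset Polynomial
open scoped NumberTheorySymbols

/-- The integers `0 ≤ n < b ^ k` whose `i`-th digit in base `b` belongs to `D i`, for all `i < k`. -/
def Restricted (b k : ℕ) (D : Fin k → Finset ℕ) : Finset ℕ :=
  (Finset.range (b ^ k)).filter (fun n => ∀ i : Fin k, n / b ^ (i : ℕ) % b ∈ D i)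

/-- Each `D i` is a set of digits, and it has two digits `c < c'` such that every prime factor of
`c' - c` divides `b`. -/
def DigitSets (b k : ℕ) (D : Fin k → Finset ℕ) : Prop :=
  ∀ i, (∀ d ∈ D i, d < b) ∧ ∃ c ∈ D i, ∃ c' ∈ D i, c < c' ∧
    ∀ p : ℕ, p.Prime → p ∣ c' - c → p ∣ b

/-- The value `k ^ 2 + 3 k + 1`. -/
def value (n : ℕ) : ℤ := (n : ℤ) ^ 2 + 3 * n + 1

/-- `n ^ 2 + 3 n + 1` has no prime factor `≤ y`. -/
def Rough (y n : ℕ) : Prop := ∀ p : ℕ, p.Prime → p ≤ y → ¬ (p : ℤ) ∣ value n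

open Classical in
/-- The set `S(y)`. -/
noncomputable def Start (b k : ℕ) (D : Fin k → Finset ℕ) (y : ℕ) : Finset ℕ :=
  (Restricted b k D).filter (fun n => Rough y n)

open Classical in
/-- The number of the `t` in `(n, n + T]` such that `t ^ 2 + 3 t + 1` has no prime factor `≤ y`. -/
noncomputable def next (y T n : ℕ) : ℕ := ((Finset.Ioc n (n + T)).filter (fun t => Rough y t)).card

/-- The product of `1 - 1 / p` over the primes `p ≤ y`. -/
noncomputable def V (y : ℕ) : ℝ := ∏ p ∈ (Finset.Icc 1 y).filter Nat.Prime, (1 - 1 / (p : ℝ))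

/-- The partial product of the constant `C` of the problem. -/
noncomputable def CBH (y : ℕ) : ℝ :=
  2 * ∏ p ∈ (Finset.Icc 1 y).filter (fun p => p.Prime ∧ p ≠ 2), (1 - (J(5 | p) : ℝ) / ((p : ℝ) - 1))

/-- The number of the last digits `d` such that `d ^ 2 + 3 d + 1` is coprime to `b`. -/
def lastDigits (b k : ℕ) (D : Fin k → Finset ℕ) : ℕ :=
  (((Finset.univ : Finset (Fin k)).filter (fun i : Fin k => (i : ℕ) = 0)).biUnion
    (fun i => (D i).filter (fun d : ℕ => Int.gcd (value d) b = 1))).card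

/-- The product of the numbers of the elements of `D i` over the positions `i ≥ 1`. -/
def otherDigits (k : ℕ) (D : Fin k → Finset ℕ) : ℕ :=
  ∏ i ∈ (Finset.univ : Finset (Fin k)).filter (fun i : Fin k => (i : ℕ) ≠ 0), (D i).card

/-- The main term. -/
noncomputable def mainTerm (b k : ℕ) (D : Fin k → Finset ℕ) (y : ℕ) : ℝ :=
  (lastDigits b k D : ℝ) * otherDigits k D *
    (∏ p ∈ b.primeFactors.filter (fun p => p ≠ 2), (1 - (1 + (J(5 | p) : ℝ)) / (p : ℝ)))⁻¹ *
    (V y * CBH y)

/-- The measure of `A` for the Poisson distribution with the mean `x`. -/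
noncomputable def poisson (x : ℝ) (A : Finset ℕ) : ℝ :=
  ∑ j ∈ A, Real.exp (-x) * x ^ j / (j.factorial : ℝ)

open Pool.Agent.W123.RU.Poly (Sys Q)
open Pool.Agent.H373R2.T7 Pool.Agent.W123.RP Pool.Agent.W123.RU Pool.Agent.TH464.PO
open Pool.Agent.Q263.PK

/-- the polynomial -/
noncomputable def F : ℤ[X] := C 1 * X ^ 2 + C 3 * X + C 1

lemma F_eval (m : ℕ) : F.eval (m : ℤ) = value m := by
  unfold F value
  rw [Gen.eval_quad]
  ring

lemma odd_val (m : ℕ) : ¬ (2 : ℤ) ∣ value m := by
  unfold value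
  intro h
  have h1 : Even ((m : ℤ) ^ 2 + m) := by
    have : (m : ℤ) ^ 2 + m = m * (m + 1) := by ring
    rw [this]
    exact Int.even_mul_succ_self _
  obtain ⟨c, hc⟩ := h1
  obtain ⟨e, he⟩ := h
  omega

open Classical in
/-- the number of the roots -/
lemma rho_eq (p : ℕ) (hp : p.Prime) : (Gen.rho value p : ℤ) =
    if p = 2 then 0 else 1 + J(5 | p) := by
  rcases eq_or_ne p 2 with rfl | h2
  · rw [if_pos rfl]
    have h1 : Gen.rho value 2 = 0 := by
      unfold Gen.rho
      rw [card_eq_zero, filter_eq_empty_iff]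
      intro m _
      exact_mod_cast odd_val m
    exact_mod_cast h1
  · rw [if_neg h2]
    have h := Gen.rho_quad 1 3 1 p hp h2 (by
      intro h
      have h1 : p ∣ 1 := by exact_mod_cast h
      exact hp.one_lt.ne' (Nat.dvd_one.1 h1))
    have e1 : (fun m : ℕ => (1 : ℤ) * (m : ℤ) ^ 2 + 3 * m + 1) = value := by
      funext m
      unfold value
      ring
    rw [e1] at h
    rw [h]
    norm_num

lemma rho_lt (p : ℕ) (hp : p.Prime) : Gen.rho value p < p := by
  have h := rho_eq p hp
  rcases eq_or_ne p 2 with rfl | h2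
  · rw [if_pos rfl] at h
    omega
  · rw [if_neg h2] at h
    have := hp.two_le
    rcases jacobiSym.trichotomy 5 p with h1 | h1 | h1 <;> rw [h1] at h <;> omega

/-- the product over all primes -/
lemma prod_all (y : ℕ) (hy : 2 ≤ y) :
    ∏ p ∈ (Finset.Icc 1 y).filter Nat.Prime, (1 - (Gen.rho value p : ℝ) / (p : ℝ)) = V y * CBH y := by
  have e5 : CBH y = 2 * ∏ p ∈ (Finset.Icc 1 y).filter Nat.Prime,
      (if p ≠ 2 then (1 - (J(5 | p) : ℝ) / ((p : ℝ) - 1)) else 1) := by
    unfold CBH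
    rw [← Finset.prod_filter, Finset.filter_filter]
  have e6 : (2 : ℝ) = ∏ p ∈ (Finset.Icc 1 y).filter Nat.Prime, (if p = 2 then 2 else 1) := by
    rw [Finset.prod_ite_eq' _ 2 (fun _ => (2 : ℝ)), if_pos (by
      rw [mem_filter, mem_Icc]
      exact ⟨⟨by norm_num, hy⟩, Nat.prime_two⟩)]
  rw [e5]
  nth_rewrite 1 [e6]
  unfold V
  rw [← Finset.prod_mul_distrib, ← Finset.prod_mul_distrib]
  refine Finset.prod_congr rfl fun p hp => ?_
  rw [Finset.mem_filter] at hp
  have h := rho_eq p hp.2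
  have h' : (Gen.rho value p : ℝ) = ((if p = 2 then 0 else 1 + J(5 | p) : ℤ) : ℝ) := by
    rw [← h, Int.cast_natCast]
  rw [h']
  by_cases h2 : p = 2
  · rw [h2]
    norm_num
  · have h3 : (3 : ℝ) ≤ p := by
      have := hp.2.two_le
      exact_mod_cast (by omega : 3 ≤ p)
    have h4 : (p : ℝ) ≠ 0 := by linarith
    have h5 : (p : ℝ) - 1 ≠ 0 := by linarith
    rw [if_neg h2, if_neg h2, if_pos h2]
    push_cast
    field_simp
    ring

lemma main_eq (b k : ℕ) (hb : 2 ≤ b) (D : Fin k → Finset ℕ) (y : ℕ) (hby : b ≤ y) :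
    Gen.mainTerm b k D value y = mainTerm b k D y := by
  unfold Gen.mainTerm mainTerm
  have e1 : ∏ p ∈ (Finset.Icc 1 y).filter (fun p => p.Prime ∧ ¬ p ∣ b),
      (1 - (Gen.rho value p : ℝ) / (p : ℝ)) =
      (∏ p ∈ b.primeFactors.filter (fun p => p ≠ 2),
        (1 - (1 + (J(5 | p) : ℝ)) / (p : ℝ)))⁻¹ * (V y * CBH y) := by
    rw [← prod_all y (by omega)]
    have h2 : b.primeFactors ⊆ (Finset.Icc 1 y).filter Nat.Prime := by
      intro p hp
      rw [Nat.mem_primeFactors] at hp
      rw [mem_filter, mem_Icc]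
      have := Nat.le_of_dvd (by omega) hp.2.1
      exact ⟨⟨hp.1.one_lt.le, by omega⟩, hp.1⟩
    have h3 : (Finset.Icc 1 y).filter (fun p => p.Prime ∧ ¬ p ∣ b) =
        (Finset.Icc 1 y).filter Nat.Prime \ b.primeFactors := by
      ext p
      rw [mem_filter, mem_sdiff, mem_filter, mem_Icc, Nat.mem_primeFactors]
      constructor
      · rintro ⟨h4, h5, h6⟩
        exact ⟨⟨h4, h5⟩, fun h => h6 h.2.1⟩
      · rintro ⟨⟨h4, h5⟩, h6⟩
        exact ⟨h4, h5, fun h => h6 ⟨h5, h, by omega⟩⟩
    have h5 : ∏ p ∈ b.primeFactors, (1 - (Gen.rho value p : ℝ) / (p : ℝ)) =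
        ∏ p ∈ b.primeFactors.filter (fun p => p ≠ 2), (1 - (1 + (J(5 | p) : ℝ)) / (p : ℝ)) := by
      rw [Finset.prod_filter]
      apply prod_congr rfl
      intro p hp
      have h := rho_eq p (Nat.prime_of_mem_primeFactors hp)
      have h' : (Gen.rho value p : ℝ) = ((if p = 2 then 0 else 1 + J(5 | p) : ℤ) : ℝ) := by
        rw [← h, Int.cast_natCast]
      rw [h']
      by_cases h2 : p = 2
      · rw [if_pos h2, if_neg (by simpa using h2)]
        norm_num
      · rw [if_neg h2, if_pos h2]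
        push_cast
        ring
    rw [← h5, h3, ← prod_sdiff h2]
    have h4 : ∏ p ∈ b.primeFactors, (1 - (Gen.rho value p : ℝ) / (p : ℝ)) ≠ 0 := by
      apply prod_ne_zero_iff.2
      intro p hp
      have hpp := Nat.prime_of_mem_primeFactors hp
      have hp0 : (0 : ℝ) < p := by exact_mod_cast hpp.pos
      have : (Gen.rho value p : ℝ) / p < 1 := by
        rw [div_lt_one hp0]
        exact_mod_cast rho_lt p hpp
      linarith
    field_simp
  rw [e1]
  change (lastDigits b k D : ℝ) * otherDigits k D * _ = _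
  ring

lemma F_sys : Sys (fun _ : Fin 1 => F) := by
  refine ⟨fun _ => ?_, fun _ => ?_, fun _ => ?_, fun i j _ => Subsingleton.elim i j, ?_⟩
  · unfold F
    apply Gen.irr_quad 1 3 1 (by norm_num) ⟨1, 0, 0, by norm_num⟩
    norm_num
  · unfold F
    rw [Gen.deg_quad 1 3 1 (by norm_num)]
    norm_num
  · unfold F
    rw [Gen.lead_quad 1 3 1 (by norm_num)]
    norm_num
  · intro p hp
    refine ⟨0, fun _ h => ?_⟩
    rw [F_eval] at h
    have h1 : (p : ℤ) ∣ 1 := by simpa [value] using h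
    have h2 : p ∣ 1 := by exact_mod_cast h1
    exact hp.one_lt.ne' (Nat.dvd_one.1 h2)

lemma Q_iff (p m : ℕ) : Q (fun _ : Fin 1 => F) p m ↔ (p : ℤ) ∣ value m := by
  unfold Q
  constructor
  · rintro ⟨_, h⟩
    rwa [F_eval] at h
  · intro h
    refine ⟨0, ?_⟩
    rwa [F_eval]

open Classical in
theorem result : ∀ b : ℕ, 2 ≤ b → ∀ Λ ε : ℝ, 0 < ε →
    ∃ L y₀ k₀ : ℕ, 1 ≤ L ∧ ∀ k : ℕ, k₀ ≤ k → ∀ D : Fin k → Finset ℕ, DigitSets b k D →
      ∀ y : ℕ, y₀ ≤ y → y ^ L ≤ b ^ k →
      |((Start b k D y).card : ℝ) - mainTerm b k D y| ≤ ε * mainTerm b k D y ∧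
      ∀ T : ℕ, T * (V y * CBH y) ≤ Λ → ∀ A : Finset ℕ,
        |(((Start b k D y).filter (fun n => next y T n ∈ A)).card : ℝ) -
          (Start b k D y).card * poisson (T * (V y * CBH y)) A| ≤ ε * (Start b k D y).card := by
  intro b hb Λ ε hε
  have hdeg : 0 < F.natDegree := by
    unfold F
    rw [Gen.deg_quad 1 3 1 (by norm_num)]
    norm_num
  have hNoTr := noTr_single F hdeg
  obtain ⟨L, y₀, k₀, hL, h⟩ := Gen.law hb (fun _ : Fin 1 => F) F_sys (fun _ : Fin 1 => F) F_sys hNoTr
    (fun i j t ht => hNoTr i j t ht) value value (fun p m _ => Q_iff p m) (fun p m _ => Q_iff p m)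
    Λ ε hε
  refine ⟨L, max y₀ b, k₀, hL, fun k hk D hD y hy hyL => ?_⟩
  have h1 := h k hk D hD y ((le_max_left _ _).trans hy) hyL
  have hby : b ≤ y := (le_max_right _ _).trans hy
  have h2 : Gen.dens value y = V y * CBH y := by
    unfold Gen.dens
    exact prod_all y (hb.trans hby)
  rw [h2, main_eq b k hb D y hby] at h1
  exact h1

end Pool.Agent.Results.MP_d57abb_nt.FourConsecutiveDigits
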