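import Pool.Agent.Q138.PS.PR

/-!
# Prime integer parts of real multiples of all integral polynomials: an exceptional set of small dimension

For `q = 2` the result says: outside a set `E` of real numbers of Hausdorff dimension at most `8/9`, every
`α > 0` has the property that for ALL integral quadratic polynomials `P` with positive leading coefficient
(for instance `k ^ 2 + 3 k + 1`) the number of `k ≤ 10 ^ n` for which the integer part of `α P(k)` is a prime
number, divided by the number of primes up to `10 ^ n`, tends to `1 / 2`; moreover this is uniform in the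
polynomials whose coefficients are at most a power of `log N`, or a small power of `N` at the cost of a
slightly larger dimension.
-/

set_option autoImplicit false

open Finset Filter Topology MeasureTheory

namespace Pool.Agent.Results.MP_d57abb_nt.RealMultiples

/-- `log m` if `m` is a prime number, and `0` otherwise -/
noncomputable def theta (m : ℕ) : ℝ := if m.Prime then Real.log m else 0

/-- `P` has degree `q`, positive leading coefficient and coefficients at most `H` in absolute value -/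
def Bounded (q : ℕ) (H : ℝ) (P : Polynomial ℤ) : Prop :=
  P.natDegree = q ∧ 0 < P.leadingCoeff ∧ ∀ i, |((P.coeff i : ℤ) : ℝ)| ≤ H

open Classical in
/-- the number of `n` with `1 ≤ n ≤ N` for which the integer part of `α P(n)` is a prime number -/
noncomputable def count (α : ℝ) (P : Polynomial ℤ) (N : ℕ) : ℕ :=
  ((Icc 1 N).filter fun n : ℕ => (⌊α * ((P.eval (n : ℤ) : ℤ) : ℝ)⌋₊).Prime).card

theorem result (q : ℕ) (hq : 2 ≤ q) (δ : ℝ) (hδ : 0 ≤ δ) (hδ' : δ < 1 / (q * 2 ^ (q - 1))) :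
    ∃ E : Set ℝ, dimH E ≤ ENNReal.ofReal ((q + (q + 2) * δ) / (q + 1 / (q * 2 ^ (q - 1)))) ∧
      ∀ α : ℝ, 0 < α → α ∉ E →
        -- the weighted form
        (∀ A B : ℕ, ∀ᶠ N : ℕ in atTop, ∀ P : Polynomial ℤ, Bounded q ((N : ℝ) ^ δ * (Real.log N) ^ B) P →
          |∑ n ∈ Icc 1 N, theta ⌊α * ((P.eval (n : ℤ) : ℤ) : ℝ)⌋₊ - N| ≤ (N : ℝ) / (Real.log N) ^ A) ∧
        -- the number of primes, uniformly in the polynomial
        (∀ ε : ℝ, 0 < ε → ∀ B : ℕ, ∀ᶠ N : ℕ in atTop, ∀ P : Polynomial ℤ,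
          Bounded q ((N : ℝ) ^ δ * (Real.log N) ^ B) P →
          |(count α P N : ℝ) * Real.log ((P.leadingCoeff : ℝ) * (N : ℝ) ^ q) / N - 1| ≤ ε) ∧
        -- the form of the question, for every integral polynomial of degree `q`
        (∀ P : Polynomial ℤ, P.natDegree = q → 0 < P.leadingCoeff →
          Tendsto (fun n : ℕ => (count α P (10 ^ n) : ℝ) /
            (((Finset.range (10 ^ n)).filter Nat.Prime).card : ℝ)) atTop (𝓝 (1 / q))) := by
  classical
  have hkp : Pool.Agent.Q138.PS.kp q = 1 / (q * 2 ^ (q - 1)) := rfl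
  have hkp0 := Pool.Agent.Q138.PS.kp_pos hq
  have hkp4 := Pool.Agent.Q138.PS.kp_le hq
  have hq0 : (2 : ℝ) ≤ q := by exact_mod_cast hq
  rw [← hkp] at hδ' ⊢
  have hthr : ∀ m : ℕ, theta m = Pool.Agent.Q138.PS.thr m := fun m => rfl
  refine ⟨_, Pool.Agent.Q138.PS.int_dim2 q hq hδ hδ' Pool.Agent.Q138.GS.thw Pool.Agent.Q138.PS.thw_log
    Pool.Agent.Q138.GS.neg_thw, ?_⟩
  intro α hα hE
  rw [Set.mem_ofPred_eq, not_and, not_not] at hE
  have hgood := hE hα
  have hW : ∀ A B : ℕ, ∀ᶠ N : ℕ in atTop, ∀ P : Polynomial ℤ, Bounded q ((N : ℝ) ^ δ * (Real.log N) ^ B) P →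
      |∑ n ∈ Icc 1 N, theta ⌊α * ((P.eval (n : ℤ) : ℤ) : ℝ)⌋₊ - N| ≤ (N : ℝ) / (Real.log N) ^ A := by
    intro A B
    filter_upwards [hgood A B] with N hN
    intro P hP
    have h1 := hN P hP.1 hP.2.1 hP.2.2
    have h2 : ∑ n ∈ Icc 1 N, Pool.Agent.Q138.GS.thw ⌊α * ((P.eval (n : ℤ) : ℤ) : ℝ)⌋₊ =
        ((∑ n ∈ Icc 1 N, theta ⌊α * ((P.eval (n : ℤ) : ℤ) : ℝ)⌋₊ - N : ℝ) : ℂ) := by
      push_cast
      have h3 : (N : ℂ) = ∑ m ∈ Icc 1 N, (1 : ℂ) := by simp
      rw [h3, ← sum_sub_distrib]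
      refine sum_congr rfl fun m _ => ?_
      rw [Pool.Agent.Q138.PS.thw_thr, hthr]
      push_cast
      rfl
    rwa [h2, Complex.norm_real, Real.norm_eq_abs] at h1
  have hev : ∀ (P : Polynomial ℤ) (n : ℕ), (P.map (Int.castRingHom ℝ)).eval (n : ℝ) = ((P.eval (n : ℤ) : ℤ) : ℝ) := by
    intro P n
    have := Polynomial.eval_intCast_map (Int.castRingHom ℝ) P (n : ℤ)
    push_cast at this
    exact this
  have hC : ∀ ε : ℝ, 0 < ε → ∀ B : ℕ, ∀ᶠ N : ℕ in atTop, ∀ P : Polynomial ℤ,
      Bounded q ((N : ℝ) ^ δ * (Real.log N) ^ B) P →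
      |(count α P N : ℝ) * Real.log ((P.leadingCoeff : ℝ) * (N : ℝ) ^ q) / N - 1| ≤ ε := by
    intro ε hε B
    have h0 : 0 < (1 / 4 - δ) / 2 + 1 / 8 := by linarith
    filter_upwards [hW 1 B, Pool.Agent.Q138.PS.count_unif q (by omega) (δ := δ + ((1 / 4 - δ) / 2 + 1 / 8)) (by linarith)
      (by linarith) hα hε, Pool.Agent.Q138.GS.pw 1 B h0, eventually_ge_atTop 1] with N h1 h2 h3 h4
    intro P hP
    have hN0 : (0 : ℝ) < N := by exact_mod_cast h4
    obtain ⟨hdeg, hlead, hco⟩ := hP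
    have hinj : Function.Injective (Int.castRingHom ℝ) := Int.cast_injective
    have hPH : Pool.Agent.Q138.PS.PH q ((N : ℝ) ^ (δ + ((1 / 4 - δ) / 2 + 1 / 8))) (P.map (Int.castRingHom ℝ)) := by
      refine ⟨by rw [Polynomial.natDegree_map_eq_of_injective hinj, hdeg], ?_, fun i => ?_⟩
      · rw [Polynomial.leadingCoeff_map_of_injective hinj]
        change (1 : ℝ) ≤ ((P.leadingCoeff : ℤ) : ℝ)
        exact_mod_cast hlead
      · rw [Polynomial.coeff_map]
        refine (hco i).trans ?_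
        rw [Real.rpow_add hN0]
        rw [one_mul] at h3
        gcongr
    have h5 := h2 _ hPH
    simp only [hev] at h5
    have h6 := h5 (by
      have := h1 P ⟨hdeg, hlead, hco⟩
      rw [pow_one] at this
      exact this)
    rw [Polynomial.leadingCoeff_map_of_injective hinj] at h6
    have h7 : Pool.Agent.Q138.GS.ct (fun n : ℕ => (⌊α * ((P.eval (n : ℤ) : ℤ) : ℝ)⌋₊).Prime) N = (count α P N : ℝ) := by
      unfold Pool.Agent.Q138.GS.ct count
      congr 2
      ext a
      simp only [mem_filter]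
    rw [h7] at h6
    rw [div_sub_one hN0.ne', abs_div, abs_of_pos hN0, div_le_iff₀ hN0]
    exact h6
  refine ⟨hW, hC, fun P hdeg hlead => ?_⟩
  -- the ratio
  have hP : ∃ B : ℕ, ∀ᶠ N : ℕ in atTop, Bounded q ((N : ℝ) ^ δ * (Real.log N) ^ B) P := by
    refine ⟨1, ?_⟩
    have h1 : ∀ᶠ N : ℕ in atTop, (∑ i ∈ range (q + 1), |((P.coeff i : ℤ) : ℝ)|) ≤ Real.log N :=
      (Real.tendsto_log_atTop.comp tendsto_natCast_atTop_atTop).eventually_ge_atTop _
    filter_upwards [h1, eventually_ge_atTop 1] with N h2 h3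
    refine ⟨hdeg, hlead, fun i => ?_⟩
    have hN1 : (1 : ℝ) ≤ N := by exact_mod_cast h3
    have h4 : 1 ≤ (N : ℝ) ^ δ := Real.one_le_rpow hN1 hδ
    have h5 : |((P.coeff i : ℤ) : ℝ)| ≤ Real.log N := by
      by_cases hi : i < q + 1
      · exact (single_le_sum (f := fun i => |((P.coeff i : ℤ) : ℝ)|) (fun _ _ => abs_nonneg _) (mem_range.2 hi)).trans h2
      · rw [Polynomial.coeff_eq_zero_of_natDegree_lt (by omega)]
        simp only [Int.cast_zero, abs_zero]
        exact Real.log_nonneg hN1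
    rw [pow_one]
    nlinarith [Real.log_nonneg hN1]
  obtain ⟨B, hB⟩ := hP
  set a : ℝ := (P.leadingCoeff : ℝ) with ha
  have ha0 : 0 < a := by
    rw [ha]
    exact_mod_cast hlead
  have hT1 : Tendsto (fun N : ℕ => (count α P N : ℝ) * Real.log (a * (N : ℝ) ^ q) / N) atTop (𝓝 1) := by
    rw [Metric.tendsto_atTop]
    intro ε hε
    obtain ⟨N0, hN0⟩ := eventually_atTop.1 ((hC (ε / 2) (by positivity) B).and hB)
    refine ⟨N0, fun N hN => ?_⟩
    rw [Real.dist_eq]
    have := (hN0 N hN).1 P (hN0 N hN).2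
    linarith
  have hlog : Tendsto (fun N : ℕ => Real.log (a * (N : ℝ) ^ q) / Real.log N) atTop (𝓝 q) := by
    have h1 : Tendsto (fun N : ℕ => Real.log a / Real.log N + q) atTop (𝓝 (0 + q)) :=
      (tendsto_const_nhds.div_atTop (Real.tendsto_log_atTop.comp tendsto_natCast_atTop_atTop)).add_const _
    rw [zero_add] at h1
    refine h1.congr' ?_
    filter_upwards [Pool.Agent.Q138.GS.lg1, eventually_ge_atTop 1] with N hl hN
    have hN0 : (0 : ℝ) < N := by exact_mod_cast hN
    rw [Real.log_mul ha0.ne' (by positivity), Real.log_pow]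
    field_simp
  have hqne : (q : ℝ) ≠ 0 := by linarith
  have hT2 : Tendsto (fun N : ℕ => (count α P N : ℝ) * Real.log N / N) atTop (𝓝 (1 / q)) := by
    refine (hT1.div hlog hqne).congr' ?_
    filter_upwards [Pool.Agent.Q138.GS.lg1, eventually_ge_atTop 1, hlog.eventually (lt_mem_nhds (by linarith : (1 : ℝ) < q))]
      with N hl hN h3
    have hN0 : (0 : ℝ) < N := by exact_mod_cast hN
    have hl0 : 0 < Real.log N := by linarith
    have h4 : 0 < Real.log (a * (N : ℝ) ^ q) := by
      rw [lt_div_iff₀ hl0] at h3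
      linarith
    simp only [Pi.div_apply]
    field_simp
  have hT3 : Tendsto (fun N : ℕ => (count α P N : ℝ) /
      Pool.Agent.Q138.GS.ct (fun n => n.Prime) N) atTop (𝓝 (1 / q)) := by
    have h1 := hT2.div Pool.Agent.Q138.PS.pnt one_ne_zero
    rw [div_one] at h1
    refine h1.congr' ?_
    filter_upwards [Pool.Agent.Q138.GS.lg1, eventually_ge_atTop 1,
      Pool.Agent.Q138.PS.pnt.eventually (lt_mem_nhds (by norm_num : (0 : ℝ) < 1))] with N hl hN h3
    have hN0 : (0 : ℝ) < N := by exact_mod_cast hN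
    have hl0 : 0 < Real.log N := by linarith
    have h4 : Pool.Agent.Q138.GS.ct (fun n => n.Prime) N ≠ 0 := by
      intro h5
      rw [h5] at h3
      simp at h3
    simp only [Pi.div_apply]
    field_simp
  have h10 : Tendsto (fun n : ℕ => 10 ^ n) atTop atTop := tendsto_pow_atTop_atTop_of_one_lt (by norm_num)
  refine (hT3.comp h10).congr fun n => ?_
  simp only [Function.comp]
  congr 1
  unfold Pool.Agent.Q138.GS.ct
  have h11 : ((Icc 1 (10 ^ n)).filter fun m : ℕ => m.Prime) = (Finset.range (10 ^ n)).filter Nat.Prime := by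
    ext m
    simp only [mem_filter, mem_Icc, mem_range]
    constructor
    · rintro ⟨⟨h1, h2⟩, h3⟩
      refine ⟨lt_of_le_of_ne h2 ?_, h3⟩
      rintro rfl
      rcases Nat.eq_zero_or_pos n with rfl | hn
      · exact Nat.not_prime_one (by simpa using h3)
      · have h4 : (10 ^ n).Prime → False := by
          intro h5
          have h6 : 2 ∣ 10 ^ n := dvd_pow (by norm_num) (by omega)
          have h7 := (Nat.prime_dvd_prime_iff_eq Nat.prime_two h5).1 h6
          have h8 : 10 ≤ 10 ^ n := by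
            calc 10 = 10 ^ 1 := by norm_num
              _ ≤ 10 ^ n := Nat.pow_le_pow_right (by norm_num) hn
          omega
        exact h4 h3
    · rintro ⟨h1, h2⟩
      exact ⟨⟨h2.pos, h1.le⟩, h2⟩
  rw [← h11]
  congr 2
  ext a
  simp only [mem_filter]

end Pool.Agent.Results.MP_d57abb_nt.RealMultiples
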