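import Mathlib
import Pool.Agent.Q91.RP.Fin

/-!
Rough values of `k ^ 2 + 3 k + 1` in the even class of an arbitrary completely multiplicative sign.
-/

set_option autoImplicit false
set_option maxHeartbeats 400000

namespace Pool.Agent.Results.MP_d57abb_nt.RoughEvenClass

open Finset Pool.Agent.Q91.RP

/-- `g` is completely multiplicative on the positive integers, with values `1` and `-1` -/
def SignFunction (g : ℕ → ℤ) : Prop :=
  (∀ n : ℕ, n ≠ 0 → g n = 1 ∨ g n = -1) ∧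
    ∀ m n : ℕ, m ≠ 0 → n ≠ 0 → g (m * n) = g m * g n

/-- `M` has at most `K` prime factors, counted with multiplicity, all larger than `X ^ (1 / K)` -/
def Rough (K X M : ℕ) : Prop :=
  M.primeFactorsList.length ≤ K ∧ ∀ p : ℕ, p.Prime → p ∣ M → X < p ^ K

theorem result : ∃ K X0 : ℕ, ∀ X : ℕ, X0 ≤ X → ∀ g : ℕ → ℤ, SignFunction g →
    (X : ℝ) / Real.log X ^ K ≤
      (Set.ncard {k : ℕ | 1 ≤ k ∧ k ≤ X ∧ g (k ^ 2 + 3 * k + 1) = 1 ∧
        Rough K X (k ^ 2 + 3 * k + 1)} : ℝ) := by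
  classical
  obtain ⟨K, hK⟩ := engine_shift
  obtain ⟨w, D⟩ := loc_K
  obtain ⟨X0, hX0⟩ := hK _ _ _ _ _ D (fun n => ((n ^ 2 + 3 * n + 1 : ℕ) : ℤ)) 0 (by
    intro N
    unfold Pool.Agent.H505R2.fm
    push_cast
    ring)
  refine ⟨K, X0, ?_⟩
  intro X hX g hg
  obtain ⟨-, h4⟩ := hX0 X hX g ⟨hg.1, hg.2⟩
  refine h4.trans ?_
  have hsub : ((EF (fun n => ((n ^ 2 + 3 * n + 1 : ℕ) : ℤ)) 1 K X g : Finset ℕ) : Set ℕ) ⊆
      {k : ℕ | 1 ≤ k ∧ k ≤ X ∧ g (k ^ 2 + 3 * k + 1) = 1 ∧ Rough K X (k ^ 2 + 3 * k + 1)} := by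
    intro n hn
    unfold EF at hn
    rw [mem_coe, mem_filter, mem_Icc] at hn
    obtain ⟨⟨h1, h2⟩, -, h3, r, M, hr, h5, h6, h7⟩ := hn
    have hr' : r = 1 := by tauto
    rw [hr', Nat.cast_one, one_mul] at h5
    dsimp only at h5
    have h8 : n ^ 2 + 3 * n + 1 = M := by exact_mod_cast h5
    rw [Int.toNat_natCast] at h3
    rw [Set.mem_ofPred_eq]
    refine ⟨h1, h2, h3, ?_⟩
    rw [h8]
    exact ⟨h6, h7⟩
  have hfin : Set.Finite {k : ℕ | 1 ≤ k ∧ k ≤ X ∧ g (k ^ 2 + 3 * k + 1) = 1 ∧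
      Rough K X (k ^ 2 + 3 * k + 1)} :=
    (Set.finite_Iic X).subset (fun k hk => hk.2.1)
  rw [← Set.ncard_coe_finset]
  exact_mod_cast Set.ncard_le_ncard hsub hfin

end Pool.Agent.Results.MP_d57abb_nt.RoughEvenClass
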