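import Pool.Agent.Q251.SV.AlmQ

/-!
# Primes and almost primes `k ^ 2 + 3 k + 1` in short intervals at almost all positions

The limit of the problem would be `C / 2`, where `C` is the product over the primes of
`(1 - ρ(p) / p) (1 - 1 / p)^(-1)`.  For the interval `(N, N + X ^ θ]`, `N ≤ X`, the
sieve has the level of distribution `X ^ θ`, and the upper bound for the number of the primes is
`4 / θ + δ` times the number `C X ^ θ / (2 log X)` predicted by Bateman and Horn; for `θ < 1 / 2` the sieve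
does not give almost primes with three, four or five prime factors in all intervals.  Here for all but few
positions `N ≤ X` the level is `X ^ τ`, `τ` up to `(1 + θ) / 2`, however small `θ` is, in all arithmetic
progressions `k = q n + u`.
-/

set_option autoImplicit false

namespace Pool.Agent.Results.MP_d57abb_nt.ShortIntervalsPositions

open Finset Filter Topology

/-- The polynomial of the problem. -/
def val (k : ℤ) : ℤ := k ^ 2 + 3 * k + 1

/-- The number of the residues `n` modulo `p` such that `p` divides `val (q n + u)`. -/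
def rho (q u p : ℕ) : ℕ :=
  #((Finset.range p).filter (fun n : ℕ => (p : ℤ) ∣ val ((q : ℤ) * n + u)))

/-- The product over the primes `p ≤ z` of `(1 - ρ(p) / p) (1 - 1 / p)^(-1)`. -/
noncomputable def cut (q u z : ℕ) : ℝ :=
  ∏ p ∈ (Finset.range (z + 1)).filter Nat.Prime, (1 - (rho q u p : ℝ) / p) / (1 - 1 / (p : ℝ))

/-- The number of `N < n ≤ N + H` such that `val (q n + u)` is a prime. -/
def P (q u N H : ℕ) : ℕ :=
  #((Ioc N (N + H)).filter (fun n : ℕ => Nat.Prime (val ((q : ℤ) * n + u)).natAbs))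

open Classical in
/-- The number of `N < n ≤ N + H` such that `val (q n + u)` has no prime factor below `z`. -/
noncomputable def R (q u : ℕ) (z : ℝ) (N H : ℕ) : ℕ :=
  #((Ioc N (N + H)).filter
    (fun n : ℕ => ∀ p : ℕ, p.Prime → (p : ℤ) ∣ val ((q : ℤ) * n + u) → z ≤ p))

open Classical in
/-- The number of `N < n ≤ N + H` such that `val (q n + u)` has at most `r` prime factors (counted with
multiplicity), none of them below `z`. -/
noncomputable def A (q u r : ℕ) (z : ℝ) (N H : ℕ) : ℕ :=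
  #((Ioc N (N + H)).filter
    (fun n : ℕ => (val ((q : ℤ) * n + u)).natAbs.primeFactorsList.length ≤ r ∧
      ∀ p : ℕ, p.Prime → (p : ℤ) ∣ val ((q : ℤ) * n + u) → z ≤ p))

/-- `F` and `f` are the upper and the lower function of the linear sieve. -/
structure SieveFunctions (F f : ℝ → ℝ) : Prop where
  contF : ContinuousOn F (Set.Ici 1)
  contf : ContinuousOn f (Set.Ici 1)
  initF : ∀ s, 1 ≤ s → s ≤ 3 → F s = 2 * Real.exp Real.eulerMascheroniConstant / s
  initf : ∀ s, 1 ≤ s → s ≤ 2 → f s = 0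
  nextf : ∀ s, 2 ≤ s → s ≤ 4 → f s = 2 * Real.exp Real.eulerMascheroniConstant * Real.log (s - 1) / s
  eqF : ∀ s, 3 ≤ s → s * F s = 2 * Real.exp Real.eulerMascheroniConstant + ∫ x in (3 : ℝ)..s, f (x - 1)
  eqf : ∀ s, 2 ≤ s → s * f s = ∫ x in (2 : ℝ)..s, F (x - 1)
  limF : Tendsto F atTop (𝓝 1)
  limf : Tendsto f atTop (𝓝 1)

open Pool.Agent.Q251.SV Pool.Agent.Y882.PX

/-- the polynomial -/
noncomputable def G (q u : ℕ) : Polynomial ℤ := Q3 (q ^ 2) (q * (2 * u + 3)) (val u)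

lemma G_eval (q u : ℕ) (n : ℤ) : (G q u).eval n = val ((q : ℤ) * n + u) := by
  unfold G val
  rw [Q3_eval]
  ring

lemma rho_eq (q u p : ℕ) : rho q u p = ro (G q u) 0 p := by
  rw [ro_eq]
  unfold rho
  congr 1
  apply filter_congr
  intro n _
  rw [G_eval, add_zero]

lemma disc (q : ℕ) (hq : 0 < q) (u : ℕ) :
    ¬ IsSquare (((q : ℤ) * (2 * u + 3)) ^ 2 - 4 * (q : ℤ) ^ 2 * val u) := by
  have h1 : ((q : ℤ) * (2 * u + 3)) ^ 2 - 4 * (q : ℤ) ^ 2 * val u = 5 * (q : ℤ) ^ 2 := by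
    unfold val
    ring
  rw [h1]
  rintro ⟨r, hr⟩
  have h5 : Irrational (Real.sqrt 5) := by
    have := Nat.Prime.irrational_sqrt (show Nat.Prime 5 by norm_num)
    exact_mod_cast this
  apply h5
  refine ⟨|(r : ℚ)| / q, ?_⟩
  have hq0 : (0 : ℝ) < q := by exact_mod_cast hq
  have h6 : ((|(r : ℚ)| / q : ℚ) : ℝ) = |(r : ℝ)| / q := by push_cast; rfl
  rw [h6]
  have h7 : (5 : ℝ) = (|(r : ℝ)| / q) ^ 2 := by
    rw [div_pow, sq_abs, eq_div_iff (by positivity)]
    have : (5 : ℝ) * (q : ℝ) ^ 2 = r * r := by exact_mod_cast hr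
    rw [this]
    ring
  rw [h7, Real.sqrt_sq (by positivity)]

lemma val_odd (k : ℤ) : ¬ (2 : ℤ) ∣ val k := by
  have h1 : val k = k * (k + 1) + 2 * k + 1 := by unfold val; ring
  have h2 : (2 : ℤ) ∣ k * (k + 1) := (Int.even_mul_succ_self k).two_dvd
  rw [h1]
  omega

lemma val_three (k : ℤ) : ¬ (3 : ℤ) ∣ val k := by
  intro h
  have h1 : k % 3 = 0 ∨ k % 3 = 1 ∨ k % 3 = 2 := by omega
  have h2 : val k % 3 = 0 := Int.emod_eq_zero_of_dvd h
  unfold val at h2
  rcases h1 with h | h | h <;> simp [pow_two, Int.add_emod, Int.mul_emod, h] at h2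

/-- there is no fixed prime divisor -/
lemma rho_lt (q u : ℕ) (hu : IsCoprime (val u) (q : ℤ)) (p : ℕ) (hp : p.Prime) :
    ro (G q u) 0 p < p := by
  have : Fact p.Prime := ⟨hp⟩
  by_cases hpq : (p : ℤ) ∣ q
  · -- no roots
    have h0 : ro (G q u) 0 p = 0 := by
      rw [← rho_eq]
      unfold rho
      rw [card_eq_zero, filter_eq_empty_iff]
      intro n _ hd
      have h1 : (p : ℤ) ∣ val u := by
        have h2 : val ((q : ℤ) * n + u) = val u + q * (n * (q * n + 2 * u + 3)) := by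
          unfold val
          ring
        rw [h2] at hd
        exact (Int.dvd_add_left (Dvd.dvd.mul_right hpq _)).1 hd
      have h3 := hu.isUnit_of_dvd' h1 hpq
      have h4 := Int.isUnit_iff.1 h3
      have h5 := hp.two_le
      omega
    rw [h0]
    exact hp.pos
  · by_cases h23 : p = 2 ∨ p = 3
    · have h0 : ro (G q u) 0 p = 0 := by
        rw [← rho_eq]
        unfold rho
        rw [card_eq_zero, filter_eq_empty_iff]
        intro n _ hd
        rcases h23 with h | h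
        · rw [h] at hd
          exact val_odd _ hd
        · rw [h] at hd
          exact val_three _ hd
      rw [h0]
      exact hp.pos
    · push Not at h23
      have hp5 : 5 ≤ p := by
        have h2 := hp.two_le
        by_contra hcon
        have h4 : p = 4 := by omega
        rw [h4] at hp
        exact absurd hp (by norm_num)
      have hna : ¬ (p : ℤ) ∣ 2 * (q : ℤ) ^ 2 := by
        intro hd
        have hpp : Prime (p : ℤ) := Nat.prime_iff_prime_int.1 hp
        rcases hpp.dvd_or_dvd hd with h | h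
        · have := Int.le_of_dvd (by norm_num) h
          omega
        · exact hpq (hpp.dvd_of_dvd_pow h)
      unfold G
      rw [ro_Q3 _ _ _ p hp hna]
      have := Pool.Agent.Y882.SI.ro_quad_le (4 * (q : ℤ) ^ 2 * val u -
        ((q : ℤ) * (2 * u + 3)) ^ 2) p hp
      omega

/-- **`k ^ 2 + 3 k + 1` at almost all positions.** Let `q ≥ 1` and let `u` be such that
`u ^ 2 + 3 u + 1` is prime to `q`. The products `cut q u z` converge to a number `C > 0`, there
are the functions `F`, `f` of the linear sieve, and for `0 < θ ≤ 1` and `ε > 0` the following holds.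

For `1 / 2 ≤ τ < 1`, `s ≥ 1`, `δ > 0` and all large `X` all but at most `X ^ (2 τ - θ + ε)` of the
integers `1 ≤ N ≤ X` have the following properties:
* at most `(2 / τ + δ) C X ^ θ / log X` of the `n` in `(N, N + X ^ θ]` have a prime `val (q n + u)`;
* the number of the `n` in `(N, N + X ^ θ]` for which `val (q n + u)` has no prime factor `< X ^ (τ / s)`
  is at least `(f(s) - δ) e ^ (-γ) (s / τ) C X ^ θ / log X` and at most
  `(F(s) + δ) e ^ (-γ) (s / τ) C X ^ θ / log X`.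

Let `r = 5`, `1 / 2 ≤ τ < 1`, `z = 2 τ / 5`, or `r = 4`, `269 / 500 ≤ τ < 1`, `z = τ / 4`, or `r = 3`,
`29 / 40 ≤ τ < 1`, `z = τ / 4`. There is `δ > 0` such that for all large `X` all but at most
`X ^ (2 τ - θ + ε)` of the integers `1 ≤ N ≤ X` have at least `δ X ^ θ / log X` integers `n` in
`(N, N + X ^ θ]` such that `val (q n + u)` has at most `r` prime factors, none of them below `X ^ z`. -/
theorem result (q u : ℕ) (hq : 0 < q) (hu : IsCoprime (val u) (q : ℤ)) :
    ∃ C : ℝ, 0 < C ∧ Tendsto (fun z : ℕ => cut q u z) atTop (𝓝 C) ∧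
    ∃ F f : ℝ → ℝ, SieveFunctions F f ∧
    ∀ θ ε : ℝ, 0 < θ → θ ≤ 1 → 0 < ε →
    (∀ τ s δ : ℝ, 1 / 2 ≤ τ → τ < 1 → 1 ≤ s → 0 < δ →
      ∀ᶠ X : ℕ in atTop, ∃ Bad ⊆ Icc 1 X, (#Bad : ℝ) ≤ (X : ℝ) ^ (2 * τ - θ + ε) ∧
      ∀ N ∈ Icc 1 X, N ∉ Bad →
        (P q u N ⌊(X : ℝ) ^ θ⌋₊ : ℝ) ≤ (2 / τ + δ) * C * (X : ℝ) ^ θ / Real.log X ∧
        (f s - δ) * (Real.exp (-Real.eulerMascheroniConstant) * s / τ) * C * (X : ℝ) ^ θ / Real.log X ≤
          (R q u ((X : ℝ) ^ (τ / s)) N ⌊(X : ℝ) ^ θ⌋₊ : ℝ) ∧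
        (R q u ((X : ℝ) ^ (τ / s)) N ⌊(X : ℝ) ^ θ⌋₊ : ℝ) ≤
          (F s + δ) * (Real.exp (-Real.eulerMascheroniConstant) * s / τ) * C * (X : ℝ) ^ θ /
            Real.log X) ∧
    (∀ (r : ℕ) (τ z : ℝ), ((r = 5 ∧ 1 / 2 ≤ τ ∧ z = 2 / 5 * τ) ∨ (r = 4 ∧ 269 / 500 ≤ τ ∧ z = τ / 4) ∨
        (r = 3 ∧ 29 / 40 ≤ τ ∧ z = τ / 4)) → τ < 1 →
      ∃ δ : ℝ, 0 < δ ∧ ∀ᶠ X : ℕ in atTop, ∃ Bad ⊆ Icc 1 X, (#Bad : ℝ) ≤ (X : ℝ) ^ (2 * τ - θ + ε) ∧
      ∀ N ∈ Icc 1 X, N ∉ Bad →
        δ * (X : ℝ) ^ θ / Real.log X ≤ (A q u r ((X : ℝ) ^ z) N ⌊(X : ℝ) ^ θ⌋₊ : ℝ)) := by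
  classical
  have hq0 : (q : ℤ) ≠ 0 := by exact_mod_cast hq.ne'
  have ha : ((q : ℤ) ^ 2) ≠ 0 := pow_ne_zero 2 hq0
  have hD := disc q hq u
  have hM : ∀ n : ℕ, n ≤ 1 * (((G q u).eval (n : ℤ)).natAbs + 1) := by
    intro n
    rw [G_eval, one_mul]
    have h1 : (n : ℤ) ≤ val ((q : ℤ) * n + u) := by
      unfold val
      have h2 : (1 : ℤ) ≤ q := by exact_mod_cast hq
      have h3 : (0 : ℤ) ≤ n := Nat.cast_nonneg _
      have h4 : (0 : ℤ) ≤ u := Nat.cast_nonneg _
      nlinarith [mul_nonneg h3 h4, sq_nonneg ((q : ℤ) * n + u), mul_nonneg h3 (sub_nonneg.2 h2)]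
    have h2 : val ((q : ℤ) * n + u) ≤ (val ((q : ℤ) * n + u)).natAbs := Int.le_natAbs
    have h3 : (n : ℤ) ≤ ((val ((q : ℤ) * n + u)).natAbs : ℤ) := h1.trans h2
    have h4 : n ≤ (val ((q : ℤ) * n + u)).natAbs := by exact_mod_cast h3
    omega
  obtain ⟨C, hC, hR, F, f, hF, hmain⟩ := main (G q u) (Q3_deg _ _ _ ha) (cv_Q3 _ _ _ ha hD)
    (rho_lt q u hu) 1 hM
  have hP : ∀ N H : ℕ, P q u N H = PG (G q u) N H := by
    intro N H
    unfold P PG
    congr 1
    apply filter_congr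
    intro n _
    rw [G_eval]
  have hRR : ∀ (z : ℝ) (N H : ℕ), R q u z N H = roughG (G q u) z N H := by
    intro z N H
    unfold R roughG
    congr 1
    apply filter_congr
    intro n _
    rw [G_eval]
  have hAA : ∀ (r : ℕ) (z : ℝ) (N H : ℕ), A q u r z N H = (gsetG (G q u) r z N H).card := by
    intro r z N H
    unfold A gsetG
    congr 1
    apply filter_congr
    intro n _
    rw [G_eval]
  have hcut : ∀ z : ℕ, cut q u z = RG (G q u) (z + 1) := by
    intro z
    unfold cut RG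
    apply prod_congr rfl
    intro p _
    rw [rho_eq]
  refine ⟨C, hC, ?_, F, f, ⟨hF.contF, hF.contf, hF.initF, hF.initf, hF.nextf, hF.eqF, hF.eqf,
    hF.limF, hF.limf⟩, ?_⟩
  · exact (hR.comp (tendsto_add_atTop_nat 1)).congr (fun z => (hcut z).symm)
  · intro θ ε h1 h2 hε
    constructor
    · intro τ s δ h3 h4 h5 h6
      filter_upwards [hmain θ τ s δ ε h1 h2 h3 h4 h5 h6 hε] with X hX
      obtain ⟨Bad, hB1, hB2, hB3⟩ := hX
      refine ⟨Bad, hB1, hB2, fun N hN hNB => ?_⟩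
      rw [hP, hRR]
      exact hB3 N hN hNB
    · intro r τ z hpar hτ
      obtain ⟨δ, hδ, hmain2⟩ := almostQ3 _ _ _ ha hD (rho_lt q u hu) r τ z hpar hτ θ ε h1 h2 hε
      refine ⟨δ, hδ, ?_⟩
      filter_upwards [hmain2] with X hX
      refine ⟨_, filter_subset _ _, hX, fun N hN hNB => ?_⟩
      rw [hAA]
      by_contra hcon
      exact hNB (mem_filter.2 ⟨hN, not_le.1 hcon⟩)

end Pool.Agent.Results.MP_d57abb_nt.ShortIntervalsPositions
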